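import Pool.Agent.Helper26.AL.GoalsB
import Pool.Agent.Helper87.AF.SUB

/-!
Project AL (MP_af6c86_pr), packet SUX: the subdivision engine with the number of components.
-/

namespace Pool.Agent.Helper22.AL

open Finset Pool.Agent.Helper26.AF Pool.Agent.Helper26.AL Pool.Agent.Helper87.AF

/-- the relation of `cmq` -/
def Rl {H W : Type} (τ : Equiv.Perm H) (v : H → W) : H → H → Prop :=
  fun a b : H => b = τ a ∨ v b = v a

theorem cmq_def {H W : Type} (τ : Equiv.Perm H) (v : H → W) :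
    cmq τ v = Nat.card (Quot (Rl τ v)) := rfl

theorem mk_tau {H W : Type} (τ : Equiv.Perm H) (v : H → W) (x : H) :
    Quot.mk (Rl τ v) x = Quot.mk (Rl τ v) (τ x) := Quot.sound (Or.inl rfl)

theorem mk_v {H W : Type} (τ : Equiv.Perm H) (v : H → W) {x y : H} (h : v x = v y) :
    Quot.mk (Rl τ v) x = Quot.mk (Rl τ v) y := Quot.sound (Or.inr h.symm)

theorem cmq_eq {H H' W W' : Type} {τ : Equiv.Perm H} {τ' : Equiv.Perm H'} {v : H → W} {v' : H' → W'}
    (f : H → H') (g : H' → H)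
    (hf1 : ∀ x, Quot.mk (Rl τ' v') (f x) = Quot.mk (Rl τ' v') (f (τ x)))
    (hf2 : ∀ x y, v x = v y → Quot.mk (Rl τ' v') (f x) = Quot.mk (Rl τ' v') (f y))
    (hg1 : ∀ x, Quot.mk (Rl τ v) (g x) = Quot.mk (Rl τ v) (g (τ' x)))
    (hg2 : ∀ x y, v' x = v' y → Quot.mk (Rl τ v) (g x) = Quot.mk (Rl τ v) (g y))
    (hfg : ∀ y, Quot.mk (Rl τ' v') (f (g y)) = Quot.mk (Rl τ' v') y)
    (hgf : ∀ x, Quot.mk (Rl τ v) (g (f x)) = Quot.mk (Rl τ v) x) : cmq τ v = cmq τ' v' := by
  rw [cmq_def, cmq_def]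
  apply Nat.card_congr
  refine ⟨Quot.lift (fun x => Quot.mk (Rl τ' v') (f x)) ?_,
    Quot.lift (fun x => Quot.mk (Rl τ v) (g x)) ?_, ?_, ?_⟩
  · rintro a b (h | h)
    · rw [h]
      exact hf1 a
    · exact hf2 a b h.symm
  · rintro a b (h | h)
    · rw [h]
      exact hg1 a
    · exact hg2 a b h.symm
  · intro q
    induction q using Quot.ind with
    | mk x => exact hgf x
  · intro q
    induction q using Quot.ind with
    | mk x => exact hfg x

section step

variable {r N : ℕ} {τ : Equiv.Perm (KX r ⊕ Fin N × Bool)} {h : KX r ⊕ Fin N × Bool}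
    {τ' : Equiv.Perm (KX r ⊕ Fin (N + 1) × Bool)}

/-- back -/
def bk (h : KX r ⊕ Fin N × Bool) (d : KX r ⊕ Fin (N + 1) × Bool) : KX r ⊕ Fin N × Bool :=
  match (eN (KX r) N).symm d with
  | Sum.inl x => x
  | Sum.inr _ => h

theorem bk_emb (x : KX r ⊕ Fin N × Bool) : bk h (emb (KX r) N x) = x := by
  have : (eN (KX r) N).symm (emb (KX r) N x) = Sum.inl x := by
    rw [Equiv.symm_apply_eq]
    rfl
  unfold bk
  rw [this]

theorem bk_nw (b : Bool) : bk h (nw (KX r) N b) = h := by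
  have : (eN (KX r) N).symm (nw (KX r) N b) = Sum.inr b := by
    rw [Equiv.symm_apply_eq]
    rfl
  unfold bk
  rw [this]

theorem cases_d (d : KX r ⊕ Fin (N + 1) × Bool) :
    (∃ x, d = emb (KX r) N x) ∨ ∃ b, d = nw (KX r) N b := by
  obtain ⟨d', rfl⟩ := (eN (KX r) N).surjective d
  rcases d' with x | b
  · exact Or.inl ⟨x, rfl⟩
  · exact Or.inr ⟨b, rfl⟩

theorem vt_emb (x y : KX r ⊕ Fin N × Bool) :
    (vt (emb (KX r) N x) : Fin (2 * r) ⊕ Fin (N + 1)) = vt (emb (KX r) N y) ↔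
      (vt x : Fin (2 * r) ⊕ Fin N) = vt y := by
  rcases x with x | ⟨i, b⟩ <;> rcases y with y | ⟨j, c⟩ <;>
    simp [emb_inl, emb_inr, vt]

theorem vt_nw (b c : Bool) :
    (vt (nw (KX r) N b) : Fin (2 * r) ⊕ Fin (N + 1)) = vt (nw (KX r) N c) := rfl

theorem vt_emb_nw (x : KX r ⊕ Fin N × Bool) (b : Bool) :
    (vt (emb (KX r) N x) : Fin (2 * r) ⊕ Fin (N + 1)) ≠ vt (nw (KX r) N b) := by
  rcases x with x | ⟨i, c⟩
  · simp [emb_inl, nw, vt]
  · simp only [emb_inr, nw, vt, ne_eq, Sum.inr.injEq]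
    exact (Fin.castSucc_lt_last i).ne

theorem step_cmq (hp : IsPair τ) (H : Ins τ h τ') :
    cmq τ (vt : _ → Fin (2 * r) ⊕ Fin N) = cmq τ' (vt : _ → Fin (2 * r) ⊕ Fin (N + 1)) := by
  have hnn : Quot.mk (Rl τ' (vt : _ → Fin (2 * r) ⊕ Fin (N + 1))) (nw (KX r) N false)
      = Quot.mk (Rl τ' vt) (nw (KX r) N true) := mk_v _ _ (vt_nw _ _)
  have hc : Quot.mk (Rl τ' (vt : _ → Fin (2 * r) ⊕ Fin (N + 1))) (emb (KX r) N h)
      = Quot.mk (Rl τ' vt) (nw (KX r) N false) := by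
    rw [mk_tau τ' vt (emb (KX r) N h), H.c]
  have hd : Quot.mk (Rl τ' (vt : _ → Fin (2 * r) ⊕ Fin (N + 1))) (emb (KX r) N (τ h))
      = Quot.mk (Rl τ' vt) (nw (KX r) N true) := by
    rw [mk_tau τ' vt (emb (KX r) N (τ h)), H.d]
  have hh : Quot.mk (Rl τ (vt : _ → Fin (2 * r) ⊕ Fin N)) h = Quot.mk (Rl τ vt) (τ h) :=
    mk_tau _ _ _
  refine cmq_eq (emb (KX r) N) (bk h) ?_ ?_ ?_ ?_ ?_ ?_
  · intro x
    by_cases h1 : x = h
    · rw [h1, hc, hd, hnn]
    · by_cases h2 : x = τ h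
      · rw [h2, (hp h).1, hc, hd, hnn]
      · rw [mk_tau τ' vt (emb (KX r) N x), H.e x h1 h2]
  · intro x y hxy
    exact mk_v _ _ ((vt_emb x y).2 hxy)
  · intro d
    rcases cases_d d with ⟨x, rfl⟩ | ⟨b, rfl⟩
    · by_cases h1 : x = h
      · rw [h1, H.c, bk_nw, bk_emb]
      · by_cases h2 : x = τ h
        · rw [h2, H.d, bk_nw, bk_emb, hh]
        · rw [H.e x h1 h2, bk_emb, bk_emb]
          exact mk_tau _ _ _
    · cases b
      · rw [H.a, bk_nw, bk_emb]
      · rw [H.b, bk_nw, bk_emb, hh]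
  · intro d d' hdd
    rcases cases_d d with ⟨x, rfl⟩ | ⟨b, rfl⟩ <;> rcases cases_d d' with ⟨y, rfl⟩ | ⟨c, rfl⟩
    · rw [bk_emb, bk_emb]
      exact mk_v _ _ ((vt_emb x y).1 hdd)
    · exact absurd hdd (vt_emb_nw x c)
    · exact absurd hdd.symm (vt_emb_nw y b)
    · rw [bk_nw, bk_nw]
  · intro d
    rcases cases_d d with ⟨x, rfl⟩ | ⟨b, rfl⟩
    · rw [bk_emb]
    · rw [bk_nw, hc]
      cases b
      · rfl
      · exact hnn
  · intro x
    rw [bk_emb]

end step

open Classical in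
theorem key2 (hINS : StmtINS) (r : ℕ) (hr : 1 ≤ r)
    (K : Equiv.Perm (KX r) → Prop) (hK : ∀ κ, K κ → IsPair κ) (N : ℕ) :
    ∃ S : Finset (Equiv.Perm (KX r ⊕ Fin N × Bool)),
    #S = Nat.card {κ : Equiv.Perm (KX r) // K κ} * ∏ i ∈ range N, (Fintype.card (KX r) + 2 * i) ∧
    (∀ x, ∑ τ ∈ S, fX x τ ≤
      2 * Nat.card {κ : Equiv.Perm (KX r) // K κ} *
        ∏ i ∈ range N, (Fintype.card (KX r) + 2 * i - 1)) ∧
    ∀ τ ∈ S, IsPair τ ∧ NoPure τ ∧ ∃ κ, K κ ∧
      (∀ σ : Equiv.Perm (KX r), orb (Equiv.sumCongr σ (Equiv.prodCongr (Equiv.refl (Fin N))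
          (Equiv.swap false true)) * τ) = orb (σ * κ)) ∧
      cmq τ (vt : _ → Fin (2 * r) ⊕ Fin N) = cmq κ Prod.fst := by
  induction N with
  | zero =>
    let Φ : Equiv.Perm (KX r) → Equiv.Perm (KX r ⊕ Fin 0 × Bool) :=
      fun κ => Equiv.sumCongr κ (Equiv.refl _)
    have hΦ : Function.Injective Φ := by
      intro a b hab
      refine Equiv.ext ?_
      intro x
      have h1 : Φ a (Sum.inl x) = Φ b (Sum.inl x) := by rw [hab]
      exact Sum.inl_injective h1
    have hcard : #(univ.filter K) = Nat.card {κ : Equiv.Perm (KX r) // K κ} := by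
      rw [Nat.card_eq_fintype_card, Fintype.card_subtype]
    refine ⟨(univ.filter K).image Φ, ?_, ?_, ?_⟩
    · rw [card_image_of_injective _ hΦ, hcard]; simp
    · intro x
      rw [sum_image (fun a _ b _ hab => hΦ hab)]
      have h1 : ∀ κ ∈ univ.filter K, fX x (Φ κ) ≤ 2 := by
        intro κ _
        unfold fX; split_ifs <;> norm_num
      have h2 := sum_le_card_nsmul _ _ _ h1
      rw [hcard] at h2
      simp only [range_zero, prod_empty, mul_one]
      simpa [mul_comm] using h2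
    · intro τ hτ
      obtain ⟨κ, hκ, rfl⟩ := mem_image.1 hτ
      have hκ' : K κ := (mem_filter.1 hκ).2
      refine ⟨?_, ?_, κ, hκ', ?_, ?_⟩
      · rintro (x | ⟨i, b⟩)
        · constructor
          · show Sum.inl (κ (κ x)) = Sum.inl x
            rw [(hK κ hκ' x).1]
          · intro h
            have h1 : (Sum.inl (κ x) : KX r ⊕ Fin 0 × Bool) = Sum.inl x := h
            exact (hK κ hκ' x).2 (Sum.inl_injective h1)
        · exact i.elim0
      · rintro C ⟨w, hw⟩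
        exact w.elim0
      · intro σ
        have e1 : (Equiv.sumCongr σ (Equiv.prodCongr (Equiv.refl (Fin 0)) (Equiv.swap false true)) *
            Φ κ : Equiv.Perm (KX r ⊕ Fin 0 × Bool)) =
              (Equiv.sumEmpty (KX r) (Fin 0 × Bool)).symm.permCongr (σ * κ) := by
          refine Equiv.ext ?_
          rintro (x | ⟨i, b⟩)
          · rfl
          · exact i.elim0
        rw [e1, orb_conj]
      · symm
        refine cmq_eq (fun x => Sum.inl x) (fun d => (Equiv.sumEmpty (KX r) (Fin 0 × Bool)) d)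
          ?_ ?_ ?_ ?_ ?_ ?_
        · intro x
          exact mk_tau (Φ κ) vt (Sum.inl x)
        · intro x y hxy
          apply mk_v
          show (Sum.inl x.1 : Fin (2 * r) ⊕ Fin 0) = Sum.inl y.1
          rw [hxy]
        · rintro (x | ⟨i, b⟩)
          · exact mk_tau κ Prod.fst x
          · exact i.elim0
        · rintro (x | ⟨i, b⟩) (y | ⟨j, c⟩) hxy
          · exact mk_v κ Prod.fst (Sum.inl_injective hxy)
          · exact j.elim0
          · exact i.elim0
          · exact i.elim0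
        · rintro (x | ⟨i, b⟩)
          · rfl
          · exact i.elim0
        · intro x
          rfl
  | succ N ih =>
    obtain ⟨S, hS1, hS2, hS3⟩ := ih
    obtain ⟨i1, i2, i3, i4⟩ := hINS (KX r ⊕ Fin N × Bool)
    choose! ins hins using i1
    let Φ : Equiv.Perm (KX r ⊕ Fin N × Bool) × (KX r ⊕ Fin N × Bool) →
        Equiv.Perm (KX r ⊕ Fin (N + 1) × Bool) :=
      fun q => (eN (KX r) N).permCongr (ins q.1 q.2)
    have hI : ∀ τ ∈ S, ∀ h, Ins τ h (Φ (τ, h)) := fun τ hτ h => ins_of (hins τ h (hS3 τ hτ).1).1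
    have hinj : Set.InjOn Φ (S ×ˢ (univ : Finset (KX r ⊕ Fin N × Bool)) : Finset _) := by
      rintro ⟨τ₁, h₁⟩ hq₁ ⟨τ₂, h₂⟩ hq₂ hab
      have m1 : τ₁ ∈ S := (mem_product.1 (Finset.mem_coe.1 hq₁)).1
      have m2 : τ₂ ∈ S := (mem_product.1 (Finset.mem_coe.1 hq₂)).1
      have h3 : ins τ₁ h₁ = ins τ₂ h₂ := (eN (KX r) N).permCongr.injective hab
      have p1 := (hS3 τ₁ m1).1
      have p2 := (hS3 τ₂ m2).1
      have h4 := i3 τ₁ τ₂ h₁ h₂ (ins τ₁ h₁) p1 p2 (hins τ₁ h₁ p1).1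
        (by rw [h3]; exact (hins τ₂ h₂ p2).1)
      exact Prod.ext h4.1 h4.2
    have hcH : Fintype.card (KX r ⊕ Fin N × Bool) = Fintype.card (KX r) + 2 * N := by
      rw [Fintype.card_sum]
      congr 1
      rw [Fintype.card_prod, Fintype.card_fin, Fintype.card_bool, mul_comm]
    have hne : Nonempty (KX r) := ⟨(⟨0, by omega⟩, 0)⟩
    refine ⟨(S ×ˢ univ).image Φ, ?_, ?_, ?_⟩
    · rw [card_image_of_injOn hinj, card_product, card_univ, hcH, hS1, prod_range_succ]
      ring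
    · intro x
      rw [sum_image hinj, sum_product, prod_range_succ]
      have h1 : ∀ τ ∈ S, ∑ h, fX x (Φ (τ, h)) ≤ (Fintype.card (KX r) + 2 * N - 1) * fX x τ := by
        intro τ hτ
        have hp := (hS3 τ hτ).1
        rw [← hcH]
        refine sum_two _ _ (if AX x τ then 1 else 0) (Sum.inl x) (τ (Sum.inl x)) (Ne.symm (hp _).2)
          (fun h => f_le hp (hI τ hτ h) x) (f_at hp (hI τ hτ _) x (Or.inl rfl))
          (f_at hp (hI τ hτ _) x (Or.inr rfl)) ?_
        unfold fX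
        split_ifs <;> norm_num
      calc ∑ τ ∈ S, ∑ h, fX x (Φ (τ, h))
          ≤ ∑ τ ∈ S, (Fintype.card (KX r) + 2 * N - 1) * fX x τ := sum_le_sum h1
        _ = (Fintype.card (KX r) + 2 * N - 1) * ∑ τ ∈ S, fX x τ := by rw [mul_sum]
        _ ≤ (Fintype.card (KX r) + 2 * N - 1) * (2 * Nat.card {κ : Equiv.Perm (KX r) // K κ} *
            ∏ i ∈ range N, (Fintype.card (KX r) + 2 * i - 1)) := Nat.mul_le_mul_left _ (hS2 x)
        _ = _ := by ring
    · intro τ' hτ'
      obtain ⟨⟨τ, h⟩, hq, rfl⟩ := mem_image.1 hτ'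
      have hτ : τ ∈ S := (mem_product.1 hq).1
      obtain ⟨hp, hN, κ, hκ, ho, hP⟩ := hS3 τ hτ
      have hI' := hI τ hτ h
      have hi := hins τ h hp
      refine ⟨pair_conj _ hi.2, noPure_step hp hI' hN, κ, hκ, ?_, ?_⟩
      · intro σ
        rw [← ho σ, ← i4 τ h (ins τ h) _ hp hi.1, sumCongr_step]
        have e1 : (eN (KX r) N).permCongr (Equiv.sumCongr (Equiv.sumCongr σ
            (Equiv.prodCongr (Equiv.refl (Fin N)) (Equiv.swap false true))) (Equiv.swap false true)) *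
              Φ (τ, h) =
            (eN (KX r) N).permCongr ((Equiv.sumCongr (Equiv.sumCongr σ
              (Equiv.prodCongr (Equiv.refl (Fin N)) (Equiv.swap false true)))
                (Equiv.swap false true)) * ins τ h) := by
          refine Equiv.ext ?_
          intro d
          simp [Φ, Equiv.permCongr_apply]
        rw [e1, orb_conj]
      · rw [← step_cmq hp hI', hP]

/-- The packet. -/
theorem goalSUX (hINS : Pool.Agent.Helper26.AF.StmtINS) : Pool.Agent.Helper26.AL.StmtSUX := by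
  classical
  intro r hr K hK N
  obtain ⟨S, hS1, hS2, hS3⟩ := key2 hINS r hr K hK N
  have hcX : Fintype.card (KX r) = 6 * r := by
    rw [Fintype.card_prod, Fintype.card_fin, Fintype.card_fin]
    ring
  rw [hcX] at hS1
  simp only [hcX] at hS2
  refine ⟨(S : Set _), ?_, ?_, fun τ hτ => hS3 τ (Finset.mem_coe.1 hτ)⟩
  · rw [← hS1]; simp
  · have e1 : Nat.card {τ : Equiv.Perm (KX r ⊕ Fin N × Bool) // τ ∈ (S : Set _) ∧ Short τ} =
        #(S.filter Short) := by
      apply Nat.subtype_card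
      intro τ
      rw [mem_filter, Finset.mem_coe]
    rw [e1]
    have h1 : ∀ τ ∈ S.filter Short, 1 ≤ ∑ x, fX x τ := by
      intro τ hτ
      obtain ⟨x, hx⟩ := (mem_filter.1 hτ).2
      have h2 : 1 ≤ fX x τ := by
        unfold fX
        by_cases h3 : AX x τ
        · rw [if_pos h3]; norm_num
        · rw [if_neg h3, if_pos]
          rcases hx with hx | hx
          · exact absurd hx h3
          · exact hx
      exact le_trans h2 (single_le_sum (f := fun x => fX x τ) (fun _ _ => Nat.zero_le _) (mem_univ x))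
    calc #(S.filter Short) = ∑ τ ∈ S.filter Short, 1 := by simp
      _ ≤ ∑ τ ∈ S.filter Short, ∑ x, fX x τ := sum_le_sum h1
      _ ≤ ∑ τ ∈ S, ∑ x, fX x τ := sum_le_sum_of_subset (filter_subset _ _)
      _ = ∑ x, ∑ τ ∈ S, fX x τ := sum_comm
      _ ≤ ∑ x : KX r, 2 * Nat.card {κ : Equiv.Perm (KX r) // K κ} *
            ∏ i ∈ range N, (6 * r + 2 * i - 1) := sum_le_sum (fun x _ => hS2 x)
      _ = _ := by
          rw [sum_const, card_univ, hcX, smul_eq_mul]; ring

end Pool.Agent.Helper22.AL
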